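import Mathlib

/-!
# Injective homomorphism counts into `PG(2, p)` do not converge on the logarithmic scale

The incidence graph `H` of the Möbius–Kantor configuration `8₃` satisfies
`inj(H, G_p) = 0` for all primes `p ≡ 2 (mod 3)` and `inj(H, G_p) ≥ 1` for all primes
`p ≡ 1 (mod 3)`.
-/

set_option autoImplicit false

open Filter Topology

namespace Pool.Agent.Results.MP_5e7574_co.NoLimit

/-- A finite bipartite graph with labelled vertex classes `V₁`, `V₂` and edge set
`{(x, y) : Adj x y} ⊆ V₁ × V₂`. -/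
structure BipGraph where
  /-- The first vertex class. -/
  V₁ : Type
  /-- The second vertex class. -/
  V₂ : Type
  [fin₁ : Finite V₁]
  [fin₂ : Finite V₂]
  /-- `Adj x y` says that `(x, y)` is an edge. -/
  Adj : V₁ → V₂ → Prop

/-- `G` has at least one edge. -/
def BipGraph.HasEdge (G : BipGraph) : Prop := ∃ x y, G.Adj x y

/-- The number of label-preserving homomorphisms `H → G` that are injective on vertices. -/
noncomputable def inj (H G : BipGraph) : ℕ :=
  Nat.card {f : (H.V₁ → G.V₁) × (H.V₂ → G.V₂) //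
    Function.Injective f.1 ∧ Function.Injective f.2 ∧
      ∀ x y, H.Adj x y → G.Adj (f.1 x) (f.2 y)}

/-- The point-line incidence graph of the projective plane over the finite field `F`: the points
are the one-dimensional and the lines the two-dimensional subspaces of `F³`. -/
def plane (F : Type) [Field F] [Finite F] : BipGraph where
  V₁ := {P : Submodule F (Fin 3 → F) // Module.finrank F P = 1}
  V₂ := {L : Submodule F (Fin 3 → F) // Module.finrank F L = 2}
  Adj P L := P.1 ≤ L.1

/-- `log_p m` as an extended real number, with `log_p 0 = -∞`. -/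
noncomputable def elog (p m : ℕ) : EReal := if m = 0 then ⊥ else ((Real.logb p m : ℝ) : EReal)

/-- The sequence `(log_p inj(H, G_p))`, `p` running through the primes in increasing order. -/
noncomputable def logInj (H : BipGraph) (n : ℕ) : EReal :=
  have : Fact (Nat.nth Nat.Prime n).Prime := ⟨Nat.prime_nth_prime n⟩
  elog (Nat.nth Nat.Prime n) (inj H (plane (ZMod (Nat.nth Nat.Prime n))))

/-! ### Linear algebra -/

section linear

variable {F V : Type} [Field F] [AddCommGroup V] [Module F V] [FiniteDimensional F V]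

lemma eq_span (W : Submodule F V) (hW : Module.finrank F W = 2) {v w : V} (hv : v ∈ W)
    (hw : w ∈ W) (hli : LinearIndependent F ![v, w]) : Submodule.span F {v, w} = W := by
  apply Submodule.eq_of_le_of_finrank_eq
  · rw [Submodule.span_le]
    rintro x (rfl | rfl)
    · exact hv
    · exact hw
  · rw [hW]
    have := finrank_span_eq_card hli
    rw [Matrix.range_cons, Matrix.range_cons, Matrix.range_empty, Set.union_empty,
      Fintype.card_fin] at this
    exact this

lemma exists_coeff (W : Submodule F V) (hW : Module.finrank F W = 2) {v w u : V} (hv : v ∈ W)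
    (hw : w ∈ W) (hu : u ∈ W) (hli : LinearIndependent F ![v, w]) :
    ∃ a b : F, u = a • v + b • w := by
  rw [← eq_span W hW hv hw hli, Submodule.mem_span_pair] at hu
  obtain ⟨a, b, h⟩ := hu
  exact ⟨a, b, h.symm⟩

/-- The algebraic core. -/
lemma core (v : Fin 8 → V) (hv : ∀ i, v i ≠ 0) (hne : ∀ i j, i ≠ j → ∀ a : F, a • v i ≠ v j)
    (W : Fin 8 → Submodule F V) (hW : ∀ i, Module.finrank F (W i) = 2)
    (h0 : ∀ i, v i ∈ W i) (h1 : ∀ i, v (i + 1) ∈ W i) (h3 : ∀ i, v (i + 3) ∈ W i)
    (h02 : W 0 ≠ W 2) : ∃ s : F, s ^ 2 - s + 1 = 0 := by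
  have hli : ∀ i j, i ≠ j → LinearIndependent F ![v i, v j] := fun i j hij =>
    (LinearIndependent.pair_iff' (hv i)).2 (hne i j hij)
  -- `v 0, v 1, v 2` are independent
  have hv2 : v 2 ∉ W 0 := by
    intro h2
    apply h02
    have e1 := eq_span (W 0) (hW 0) h2 (h3 0) (hli 2 3 (by decide))
    have e2 := eq_span (W 2) (hW 2) (h0 2) (h1 2) (hli 2 3 (by decide))
    rw [← e1, ← e2]
    rfl
  have hind : ∀ x y z : F, x • v 0 + y • v 1 + z • v 2 = 0 → x = 0 ∧ y = 0 ∧ z = 0 := by
    intro x y z h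
    have hz : z = 0 := by
      by_contra hz
      apply hv2
      have e : v 2 = (-(z⁻¹ * x)) • v 0 + (-(z⁻¹ * y)) • v 1 := by
        have e1 : z⁻¹ • (x • v 0 + y • v 1 + z • v 2) = 0 := by rw [h, smul_zero]
        rw [smul_add, smul_add, smul_smul, smul_smul, smul_smul, inv_mul_cancel₀ hz,
          one_smul] at e1
        linear_combination (norm := module) e1
      rw [e]
      exact Submodule.add_mem _ (Submodule.smul_mem _ _ (h0 0)) (Submodule.smul_mem _ _ (h1 0))
    subst hz
    rw [zero_smul, add_zero] at h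
    have := LinearIndependent.pair_iff.1 (hli 0 1 (by decide)) x y h
    exact ⟨this.1, this.2, rfl⟩
  obtain ⟨a, b, hab⟩ := exists_coeff (W 0) (hW 0) (h0 0) (h1 0) (h3 0) (hli _ _ (by decide))
  obtain ⟨c, d, hcd⟩ := exists_coeff (W 1) (hW 1) (h0 1) (h1 1) (h3 1) (hli _ _ (by decide))
  obtain ⟨e, f, hef⟩ := exists_coeff (W 7) (hW 7) (h1 7) (h3 7) (h0 7) (hli _ _ (by decide))
  obtain ⟨g, h, hgh⟩ := exists_coeff (W 2) (hW 2) (h0 2) (h1 2) (h3 2) (hli _ _ (by decide))
  obtain ⟨k, l, hkl⟩ := exists_coeff (W 3) (hW 3) (h0 3) (h1 3) (h3 3) (hli _ _ (by decide))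
  obtain ⟨m, n, hmn⟩ := exists_coeff (W 4) (hW 4) (h0 4) (h1 4) (h3 4) (hli _ _ (by decide))
  obtain ⟨x, y, hxy⟩ := exists_coeff (W 5) (hW 5) (h3 5) (h0 5) (h1 5) (hli _ _ (by decide))
  obtain ⟨z, w, hzw⟩ := exists_coeff (W 6) (hW 6) (h1 6) (h3 6) (h0 6) (hli _ _ (by decide))
  simp only [show (0 : Fin 8) + 1 = 1 from rfl, show (0 : Fin 8) + 3 = 3 from rfl,
    show (1 : Fin 8) + 1 = 2 from rfl, show (1 : Fin 8) + 3 = 4 from rfl,
    show (2 : Fin 8) + 1 = 3 from rfl, show (2 : Fin 8) + 3 = 5 from rfl,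
    show (3 : Fin 8) + 1 = 4 from rfl, show (3 : Fin 8) + 3 = 6 from rfl,
    show (4 : Fin 8) + 1 = 5 from rfl, show (4 : Fin 8) + 3 = 7 from rfl,
    show (5 : Fin 8) + 1 = 6 from rfl, show (5 : Fin 8) + 3 = 0 from rfl,
    show (6 : Fin 8) + 1 = 7 from rfl, show (6 : Fin 8) + 3 = 1 from rfl,
    show (7 : Fin 8) + 1 = 0 from rfl, show (7 : Fin 8) + 3 = 2 from rfl] at hab hcd hef hgh hkl hmn hxy hzw
  have ha : a ≠ 0 := by
    rintro rfl
    rw [zero_smul, zero_add] at hab
    exact hne 1 3 (by decide) b hab.symm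
  have hb : b ≠ 0 := by
    rintro rfl
    rw [zero_smul, add_zero] at hab
    exact hne 0 3 (by decide) a hab.symm
  have hd : d ≠ 0 := by
    rintro rfl
    rw [zero_smul, add_zero] at hcd
    exact hne 1 4 (by decide) c hcd.symm
  have hh : h ≠ 0 := by
    rintro rfl
    rw [zero_smul, add_zero] at hgh
    exact hne 2 5 (by decide) g hgh.symm
  have hk : k ≠ 0 := by
    rintro rfl
    rw [zero_smul, zero_add] at hkl
    exact hne 4 6 (by decide) l hkl.symm
  have E4 := hind (n * h * a - e) (m * c + n * h * b) (m * d + n * g - f) (by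
    rw [hef, hgh, hcd, hab] at hmn
    linear_combination (norm := module) -hmn)
  have E5 := hind (k * a - x - y * h * a) (k * b + l * c - y * h * b) (l * d - y * g) (by
    rw [hkl, hgh, hcd, hab] at hxy
    linear_combination (norm := module) hxy)
  have E6 := hind (k * a - z * e) (k * b + l * c - w) (l * d - z * f) (by
    rw [hkl, hef, hcd, hab] at hzw
    linear_combination (norm := module) hzw)
  obtain ⟨E41, E42, E43⟩ := E4
  obtain ⟨E51, E52, E53⟩ := E5
  obtain ⟨E61, E62, E63⟩ := E6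
  have A1 : k = z * n * h := by
    apply mul_left_cancel₀ ha
    linear_combination E61 - z * E41
  have A2 : c * f = n * (g * c - h * d * b) := by
    linear_combination d * E42 - c * E43
  have A3 : k * b * d = y * (h * d * b - g * c) := by
    linear_combination d * E52 - c * E53
  have A4 : y * (g * c) = z * n * (g * c - h * d * b) := by
    linear_combination c * E63 - c * E53 + z * A2
  have hy : y ≠ 0 := by
    rintro rfl
    rw [zero_mul] at A3
    exact mul_ne_zero (mul_ne_zero hk hb) hd A3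
  have hK : h * d * b ≠ 0 := mul_ne_zero (mul_ne_zero hh hd) hb
  have A5 : (g * c) ^ 2 - (g * c) * (h * d * b) + (h * d * b) ^ 2 = 0 := by
    have : y * ((g * c) ^ 2 - (g * c) * (h * d * b) + (h * d * b) ^ 2) = 0 := by
      linear_combination (h * d * b) * A4 + (g * c - h * d * b) * (A3 - b * d * A1)
    exact (mul_eq_zero.1 this).resolve_left hy
  refine ⟨(g * c) / (h * d * b), ?_⟩
  field_simp
  linear_combination A5

end linear

/-! ### The Möbius–Kantor configuration -/

/-- The incidence graph of the Möbius–Kantor configuration: the points and the lines are the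
residues modulo `8`, and the line `l` contains the points `l`, `l + 1` and `l + 3`. -/
def MK : BipGraph where
  V₁ := Fin 8
  V₂ := Fin 8
  Adj i l := i = l ∨ i = l + 1 ∨ i = l + 3

lemma MK_hasEdge : MK.HasEdge := ⟨(0 : Fin 8), (0 : Fin 8), Or.inl rfl⟩

/-- An embedding of the configuration yields a root of `x² - x + 1`. -/
lemma exists_root {F : Type} [Field F] [Finite F]
    (f₁ : Fin 8 → {P : Submodule F (Fin 3 → F) // Module.finrank F P = 1})
    (f₂ : Fin 8 → {L : Submodule F (Fin 3 → F) // Module.finrank F L = 2})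
    (h₁ : Function.Injective f₁) (h₂ : Function.Injective f₂)
    (h : ∀ i l : Fin 8, (i = l ∨ i = l + 1 ∨ i = l + 3) → (f₁ i).1 ≤ (f₂ l).1) :
    ∃ s : F, s ^ 2 - s + 1 = 0 := by
  have hrep : ∀ i, ∃ v : Fin 3 → F, v ≠ 0 ∧ v ∈ (f₁ i).1 ∧ ∀ w ∈ (f₁ i).1, ∃ c : F, c • v = w := by
    intro i
    obtain ⟨v, hv0, hv⟩ := finrank_eq_one_iff'.1 (f₁ i).2
    refine ⟨v.1, ?_, v.2, ?_⟩
    · intro h0
      exact hv0 (Subtype.ext h0)
    · intro w hw
      obtain ⟨c, hc⟩ := hv ⟨w, hw⟩
      exact ⟨c, congrArg Subtype.val hc⟩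
  choose v hv0 hv hvw using hrep
  refine core v hv0 ?_ (fun i => (f₂ i).1) (fun i => (f₂ i).2) ?_ ?_ ?_ ?_
  · intro i j hij a ha
    apply hij
    apply h₁
    apply Subtype.ext
    symm
    apply Submodule.eq_of_le_of_finrank_eq
    · intro w hw
      obtain ⟨c, rfl⟩ := hvw j w hw
      rw [← ha]
      exact Submodule.smul_mem _ _ (Submodule.smul_mem _ _ (hv i))
    · rw [(f₁ i).2, (f₁ j).2]
  · intro i
    exact h i i (Or.inl rfl) (hv i)
  · intro i
    exact h (i + 1) i (Or.inr (Or.inl rfl)) (hv (i + 1))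
  · intro i
    exact h (i + 3) i (Or.inr (Or.inr rfl)) (hv (i + 3))
  · intro h02
    have : (0 : Fin 8) = 2 := h₂ (Subtype.ext h02)
    exact absurd this (by decide)

/-- The points of the realization. -/
def pt {F : Type} [Field F] (s : F) : Fin 8 → (Fin 3 → F) :=
  ![![1, 0, 0], ![0, 1, 0], ![0, 0, 1], ![1, 1, 0], ![0, 1, 1], ![1, 1, s], ![1, s, s - 1],
    ![1, 0, s - 1]]

/-- The normal vectors of the lines of the realization. -/
def nrm {F : Type} [Field F] (s : F) : Fin 8 → (Fin 3 → F) :=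
  ![![0, 0, 1], ![1, 0, 0], ![1, -1, 0], ![1, -1, 1], ![s - 1, 1, -1], ![0, -s, 1],
    ![1 - s, 0, 1], ![0, 1, 0]]

/-- The functional `x ↦ n₀ x₀ + n₁ x₁ + n₂ x₂`. -/
def fnl {F : Type} [Field F] (n : Fin 3 → F) : Module.Dual F (Fin 3 → F) :=
  ∑ i, n i • LinearMap.proj i

lemma fnl_apply {F : Type} [Field F] (n x : Fin 3 → F) :
    fnl n x = n 0 * x 0 + n 1 * x 1 + n 2 * x 2 := by
  simp [fnl, Fin.sum_univ_three]

/-- Two vectors some `2 × 2` minor of which does not vanish. -/
def Indep {F : Type} [Field F] (v w : Fin 3 → F) : Prop :=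
  v 0 * w 1 - v 1 * w 0 ≠ 0 ∨ v 0 * w 2 - v 2 * w 0 ≠ 0 ∨ v 1 * w 2 - v 2 * w 1 ≠ 0

lemma Indep.smul_ne {F : Type} [Field F] {v w : Fin 3 → F} (h : Indep v w) (a : F) :
    a • v ≠ w := by
  rintro rfl
  unfold Indep at h
  simp only [Pi.smul_apply, smul_eq_mul] at h
  rcases h with h | h | h <;> exact h (by ring)

lemma Indep.ker_ne {F : Type} [Field F] {v w : Fin 3 → F} (h : Indep v w) :
    LinearMap.ker (fnl v) ≠ LinearMap.ker (fnl w) := by
  intro hk
  have key : ∀ x : Fin 3 → F, fnl v x = 0 → fnl w x = 0 := by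
    intro x hx
    have : x ∈ LinearMap.ker (fnl v) := hx
    rw [hk] at this
    exact this
  have e1 := key ![v 1, - v 0, 0] (by rw [fnl_apply]; simp; ring)
  have e2 := key ![v 2, 0, - v 0] (by rw [fnl_apply]; simp; ring)
  have e3 := key ![0, v 2, - v 1] (by rw [fnl_apply]; simp; ring)
  rw [fnl_apply] at e1 e2 e3
  simp only [Matrix.cons_val_zero, Matrix.cons_val_one, Matrix.cons_val, mul_zero, add_zero,
    zero_add] at e1 e2 e3
  rcases h with h | h | h
  · exact h (by linear_combination -e1)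
  · exact h (by linear_combination -e2)
  · exact h (by linear_combination -e3)

lemma pt_indep {F : Type} [Field F] {s : F} (h0 : s ≠ 0) (h1 : s - 1 ≠ 0) :
    ∀ i j : Fin 8, i ≠ j → Indep (pt s i) (pt s j) := by
  have h1' : 1 - s ≠ 0 := by
    intro h
    exact h1 (by linear_combination -h)
  intro i j hij
  fin_cases i <;> fin_cases j <;> simp [Indep, pt, h0, h1, h1'] at hij ⊢

lemma nrm_indep {F : Type} [Field F] {s : F} (h0 : s ≠ 0) (h1 : s - 1 ≠ 0) :
    ∀ i j : Fin 8, i ≠ j → Indep (nrm s i) (nrm s j) := by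
  have h1' : 1 - s ≠ 0 := by
    intro h
    exact h1 (by linear_combination -h)
  intro i j hij
  fin_cases i <;> fin_cases j <;> simp [Indep, nrm, h0, h1, h1'] at hij ⊢

lemma pt_ne_zero {F : Type} [Field F] (s : F) (i : Fin 8) : pt s i ≠ 0 := by
  intro h
  have e0 := congrFun h 0
  have e1 := congrFun h 1
  have e2 := congrFun h 2
  fin_cases i <;> simp [pt] at e0 e1 e2

lemma nrm_ne_zero {F : Type} [Field F] (s : F) (i : Fin 8) : nrm s i ≠ 0 := by
  intro h
  have e0 := congrFun h 0
  have e1 := congrFun h 1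
  have e2 := congrFun h 2
  fin_cases i <;> simp [nrm] at e0 e1 e2

lemma fnl_ne_zero {F : Type} [Field F] {n : Fin 3 → F} (hn : n ≠ 0) : fnl n ≠ 0 := by
  intro h
  apply hn
  ext i
  have := LinearMap.congr_fun h (Pi.single i 1)
  rw [fnl_apply] at this
  fin_cases i <;> simpa using this

lemma incid {F : Type} [Field F] {s : F} (hs : s ^ 2 - s + 1 = 0) (i l : Fin 8)
    (h : i = l ∨ i = l + 1 ∨ i = l + 3) : fnl (nrm s l) (pt s i) = 0 := by
  rw [fnl_apply]
  rcases h with rfl | rfl | rfl
  · fin_cases i <;> simp [pt, nrm]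
  · fin_cases l <;> simp [pt, nrm]
    linear_combination -hs
  · fin_cases l <;> simp [pt, nrm]
    ring1

/-- A root of `x² - x + 1` yields an embedding of the configuration. -/
lemma inj_pos {F : Type} [Field F] [Finite F] {s : F} (hs : s ^ 2 - s + 1 = 0) :
    0 < inj MK (plane F) := by
  have h0 : s ≠ 0 := by
    rintro rfl
    simp at hs
  have h1 : s - 1 ≠ 0 := by
    intro h
    have : s = 1 := by linear_combination h
    rw [this] at hs
    simp at hs
  have hp : ∀ i, Module.finrank F (Submodule.span F {pt s i}) = 1 := fun i =>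
    finrank_span_singleton (pt_ne_zero s i)
  have hl : ∀ i, Module.finrank F (LinearMap.ker (fnl (nrm s i))) = 2 := by
    intro i
    have := Module.Dual.finrank_ker_add_one_of_ne_zero (fnl_ne_zero (nrm_ne_zero s i))
    rw [Module.finrank_fin_fun] at this
    omega
  let f₁ : MK.V₁ → (plane F).V₁ := fun i => ⟨Submodule.span F {pt s i}, hp i⟩
  let f₂ : MK.V₂ → (plane F).V₂ := fun i => ⟨LinearMap.ker (fnl (nrm s i)), hl i⟩
  have g₁ : Function.Injective f₁ := by
    intro i j hij
    by_contra hne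
    have e : Submodule.span F {pt s i} = Submodule.span F {pt s j} := congrArg Subtype.val hij
    have hm : pt s j ∈ Submodule.span F {pt s i} := by
      rw [e]
      exact Submodule.mem_span_singleton_self _
    obtain ⟨a, ha⟩ := Submodule.mem_span_singleton.1 hm
    exact (pt_indep h0 h1 i j hne).smul_ne a ha
  have g₂ : Function.Injective f₂ := by
    intro i j hij
    by_contra hne
    exact (nrm_indep h0 h1 i j hne).ker_ne (congrArg Subtype.val hij)
  have g : ∀ x y, MK.Adj x y → (plane F).Adj (f₁ x) (f₂ y) := by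
    intro x y hxy
    change Submodule.span F {pt s x} ≤ LinearMap.ker (fnl (nrm s y))
    rw [Submodule.span_singleton_le_iff_mem, LinearMap.mem_ker]
    exact incid hs x y hxy
  have := MK.fin₁
  have := MK.fin₂
  have := (plane F).fin₁
  have := (plane F).fin₂
  have : Nonempty {f : (MK.V₁ → (plane F).V₁) × (MK.V₂ → (plane F).V₂) //
    Function.Injective f.1 ∧ Function.Injective f.2 ∧
      ∀ x y, MK.Adj x y → (plane F).Adj (f.1 x) (f.2 y)} := ⟨⟨(f₁, f₂), g₁, g₂, g⟩⟩
  exact Nat.card_pos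

/-- Without such a root there is no embedding. -/
lemma inj_eq_zero {F : Type} [Field F] [Finite F] (h : ¬ ∃ s : F, s ^ 2 - s + 1 = 0) :
    inj MK (plane F) = 0 := by
  unfold inj
  have : IsEmpty {f : (MK.V₁ → (plane F).V₁) × (MK.V₂ → (plane F).V₂) //
    Function.Injective f.1 ∧ Function.Injective f.2 ∧
      ∀ x y, MK.Adj x y → (plane F).Adj (f.1 x) (f.2 y)} := by
    refine ⟨fun f => ?_⟩
    obtain ⟨f, h₁, h₂, h₃⟩ := f
    exact h (exists_root f.1 f.2 h₁ h₂ h₃)
  exact Nat.card_of_isEmpty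

/-! ### Primes modulo `3` -/

lemma root_of_one_mod_three {p : ℕ} [Fact p.Prime] (h : p ≡ 1 [MOD 3]) :
    ∃ s : ZMod p, s ^ 2 - s + 1 = 0 := by
  have : Fact (Nat.Prime 3) := ⟨Nat.prime_three⟩
  have hp : p.Prime := Fact.out
  have hd : 3 ∣ Fintype.card (ZMod p)ˣ := by
    rw [ZMod.card_units]
    exact (Nat.modEq_iff_dvd' hp.one_le).1 h.symm
  obtain ⟨u, hu⟩ := exists_prime_orderOf_dvd_card 3 hd
  have hu3 : (u : ZMod p) ^ 3 = 1 := by
    have : u ^ 3 = 1 := by rw [← hu]; exact pow_orderOf_eq_one u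
    rw [← Units.val_pow_eq_pow_val, this, Units.val_one]
  have hu1 : (u : ZMod p) - 1 ≠ 0 := by
    intro h1
    have : u = 1 := Units.ext (by rw [Units.val_one]; linear_combination h1)
    rw [this, orderOf_one] at hu
    exact absurd hu (by norm_num)
  refine ⟨-(u : ZMod p), ?_⟩
  have : ((u : ZMod p) - 1) * ((-(u : ZMod p)) ^ 2 - (-(u : ZMod p)) + 1) = 0 := by
    linear_combination hu3
  exact (mul_eq_zero.1 this).resolve_left hu1

lemma no_root_of_two_mod_three {p : ℕ} [Fact p.Prime] (h : p ≡ 2 [MOD 3]) :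
    ¬ ∃ s : ZMod p, s ^ 2 - s + 1 = 0 := by
  rintro ⟨s, hs⟩
  have hp : p.Prime := Fact.out
  have h0 : -s ≠ 0 := by
    intro h0
    have : s = 0 := by linear_combination -h0
    rw [this] at hs
    simp at hs
  have h3 : (-s) ^ 3 = 1 := by linear_combination -(s + 1) * hs
  have hf := ZMod.pow_card_sub_one_eq_one h0
  have hk : ∃ k, p - 1 = 3 * k + 1 := by
    refine ⟨(p - 1) / 3, ?_⟩
    have : p % 3 = 2 := h
    have := hp.one_lt
    omega
  obtain ⟨k, hk⟩ := hk
  rw [hk, pow_succ, pow_mul, h3, one_pow, one_mul] at hf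
  have hs1 : s = -1 := by linear_combination -hf
  rw [hs1] at hs
  have h33 : ((3 : ℕ) : ZMod p) = 0 := by
    push_cast
    linear_combination hs
  rw [ZMod.natCast_eq_zero_iff] at h33
  have : p = 3 := (Nat.prime_dvd_prime_iff_eq hp Nat.prime_three).1 h33
  rw [this] at h
  exact absurd h (by decide)

/-! ### The sequence -/

lemma logInj_one {n : ℕ} (h : Nat.nth Nat.Prime n ≡ 1 [MOD 3]) : 0 ≤ logInj MK n := by
  have : Fact (Nat.nth Nat.Prime n).Prime := ⟨Nat.prime_nth_prime n⟩
  obtain ⟨s, hs⟩ := root_of_one_mod_three h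
  have hpos := inj_pos hs
  unfold logInj elog
  rw [if_neg hpos.ne']
  rw [EReal.coe_nonneg]
  apply Real.logb_nonneg
  · exact_mod_cast (Nat.prime_nth_prime n).one_lt
  · exact_mod_cast hpos

lemma logInj_two {n : ℕ} (h : Nat.nth Nat.Prime n ≡ 2 [MOD 3]) : logInj MK n = ⊥ := by
  have : Fact (Nat.nth Nat.Prime n).Prime := ⟨Nat.prime_nth_prime n⟩
  have h0 := inj_eq_zero (no_root_of_two_mod_three h)
  unfold logInj elog
  rw [if_pos h0]

lemma frequently_nth {a : ℕ} (h : a.Coprime 3) :
    ∃ᶠ n in atTop, Nat.nth Nat.Prime n ≡ a [MOD 3] := by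
  rw [frequently_atTop]
  intro N
  obtain ⟨p, hN, hp, ha⟩ := Nat.forall_exists_prime_gt_and_modEq (Nat.nth Nat.Prime N)
    (q := 3) (a := a) (by norm_num) h
  refine ⟨Nat.count Nat.Prime p, ?_, ?_⟩
  · have e := Nat.count_nth_of_infinite Nat.infinite_setOfPred_prime N
    rw [← e]
    exact Nat.count_monotone _ hN.le
  · rw [Nat.nth_count hp]
    exact ha

/-- There is a finite bipartite graph `H` with at least one edge for which the sequence
`(log_p inj(H, G_p))_p`, `p` running through the primes in increasing order, has lower limit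
`-∞` and nonnegative upper limit; in particular it does not converge in `[-∞, ∞]`. -/
theorem result : ∃ H : BipGraph, H.HasEdge ∧ liminf (logInj H) atTop = ⊥ ∧
    0 ≤ limsup (logInj H) atTop ∧ ¬ ∃ L : EReal, Tendsto (logInj H) atTop (𝓝 L) := by
  have h1 : liminf (logInj MK) atTop = ⊥ := by
    rw [eq_bot_iff]
    exact liminf_le_of_frequently_le' ((frequently_nth (a := 2) (by decide)).mono
      fun n hn => (logInj_two hn).le)
  have h2 : 0 ≤ limsup (logInj MK) atTop :=
    le_limsup_of_frequently_le' ((frequently_nth (a := 1) (by decide)).mono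
      fun n hn => logInj_one hn)
  refine ⟨MK, MK_hasEdge, h1, h2, ?_⟩
  rintro ⟨L, hL⟩
  rw [hL.liminf_eq] at h1
  rw [hL.limsup_eq, h1] at h2
  exact absurd h2 (by simp)

end Pool.Agent.Results.MP_5e7574_co.NoLimit
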